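import Pool.Agent.VMX.StmtsC
import Pool.Agent.Helper32_NBT.FMS

/-!
# VMX squad, row SBG: Selberg's lemma for points
-/

set_option autoImplicit false

open Matrix Filter Topology

namespace Pool.Agent.VMX.H52

open Pool.Agent.PFS Pool.Agent.PFJ Pool.Agent.NBT Pool.Agent.VMX

/-- conjugates of an element by zooming elements form a finite set, for points comparable with
their images -/
theorem fix_pts {n : ℕ} {C : Set (V n)} {Γ : Subgroup (GL (Fin n) ℝ)} (h : CC C Γ)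
    (P : ℕ → V n) (hPC : ∀ m, P m ∈ C) (σ : GL (Fin n) ℝ) (hσ : σ ∈ Γ) (M : ℝ) (hM0 : 0 < M)
    (hb1 : ∀ m, M • P m - act σ (P m) ∈ closure C) (hb2 : ∀ m, M • act σ (P m) - P m ∈ closure C)
    (g : ℕ → GL (Fin n) ℝ) (s : ℕ → ℝ) (p : V n) (hg : ∀ m, g m ∈ Γ) (hs : ∀ m, 0 < s m)
    (hp : p ∈ C) (hlim : Tendsto (fun m => s m • act (g m) (P m)) atTop (𝓝 p)) :
    (Set.range fun m => g m * σ * (g m)⁻¹).Finite := by
  obtain ⟨f1, f2, -, f4, f5, -, -, -⟩ := Pool.Agent.PFS.H87.cmf n C Γ h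
  set Y : ℕ → V n := fun m => s m • act (g m) (P m) with hY
  have hYC : ∀ m, Y m ∈ C := fun m => (h.sact_mem_iff (hg m) (hs m)).2 (hPC m)
  have hcmp : ∀ m, Cmp C (M * M) (act σ (P m)) (P m) := by
    intro m
    refine ⟨M, hM0, hb2 m, ?_⟩
    have e : (M * M) • P m - M • act σ (P m) = M • (M • P m - act σ (P m)) := by
      rw [smul_sub, smul_smul]
    rw [e]
    exact h.toPCone.cl_smul (hb1 m) hM0.le
  have hM : 0 ≤ M * M := by positivity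
  -- the conjugates
  set τ : ℕ → GL (Fin n) ℝ := fun m => g m * σ * (g m)⁻¹ with hτ
  have hτΓ : ∀ m, τ m ∈ Γ := fun m =>
    Γ.mul_mem (Γ.mul_mem (hg m) hσ) (Γ.inv_mem (hg m))
  have hτY : ∀ m, act (τ m) (Y m) = s m • act (g m) (act σ (P m)) := by
    intro m
    rw [hτ, hY]
    simp only
    rw [CC.act_smul, CC.act_mul, CC.act_mul, CC.act_inv_act]
  have hcmp2 : ∀ m, Cmp C (M * M) (act (τ m) (Y m)) (Y m) := by
    intro m
    rw [hτY, hY]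
    exact (f5 _ _ _ _ _ (hs m) (hs m)).2 ((f4 _ _ _ _ (hg m)).2 (hcmp m))
  obtain ⟨M1, hM1, hev⟩ := Pool.Agent.PFS.H81.cmc n C h.toPCone Y (fun _ => p) p p hp hp hlim
    tendsto_const_nhds
  have hM10 : 0 ≤ M1 := by linarith
  have hfin := Pool.Agent.PFS.H3.prp n C Γ h p hp (M1 * (M * M) * M1)
  have hev2 : ∀ᶠ m in atTop, τ m ∈ {γ : GL (Fin n) ℝ | γ ∈ Γ ∧
      Cmp C (M1 * (M * M) * M1) (act γ p) p} := by
    filter_upwards [hev] with m hm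
    refine ⟨hτΓ m, ?_⟩
    have hτp : act (τ m) p ∈ C := (h.act_mem_iff (hτΓ m)).2 hp
    have hτYC : act (τ m) (Y m) ∈ C := (h.act_mem_iff (hτΓ m)).2 (hYC m)
    have h1 : Cmp C M1 (act (τ m) (Y m)) (act (τ m) p) := (f4 _ _ _ _ (hτΓ m)).2 hm
    have h2 : Cmp C M1 (act (τ m) p) (act (τ m) (Y m)) := f1 _ _ _ hτYC hτp h1
    have h3 := f2 _ _ _ _ _ hM10 hM hτp hτYC (hYC m) h2 (hcmp2 m)
    exact f2 _ _ _ _ _ (mul_nonneg hM10 hM) hM10 hτp (hYC m) hp h3 hm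
  obtain ⟨N, hN⟩ := eventually_atTop.1 hev2
  refine (hfin.union ((Finset.range N).finite_toSet.image τ)).subset ?_
  rintro _ ⟨m, rfl⟩
  rcases lt_or_ge m N with hm | hm
  · exact Or.inr ⟨m, by simpa using hm, rfl⟩
  · exact Or.inl (hN m hm)

theorem sbg : SbgStmt := by
  intro n C Γ h g hgΓ x M hxC hxH hb1 hb2
  -- the constant is positive
  have hM0 : 0 < M := by
    by_contra hn
    have hn' : 0 ≤ -M := by linarith
    have hx0 : act g (x 0) ∈ C := (h.act_mem_iff hgΓ).2 (hxC 0)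
    have h1 : -(act g (x 0)) ∈ closure C := by
      have e : -(act g (x 0)) = (M • x 0 - act g (x 0)) + (-M) • x 0 := by
        rw [neg_smul]; abel
      rw [e]
      exact h.toPCone.cl_add (hb1 0) (h.toPCone.cl_smul (subset_closure (hxC 0)) hn')
    have h3 := h.salient _ (subset_closure hx0) h1
    exact h.zero (h3 ▸ hx0)
  obtain ⟨φ, γ, s, p, hφ, hγ, hs, hp, hlim⟩ := H60.zom n C Γ h x hxC hxH
  have hfin := fix_pts h (fun m => x (φ m)) (fun m => hxC (φ m)) g hgΓ M hM0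
    (fun m => hb1 (φ m)) (fun m => hb2 (φ m)) γ s p hγ hs hp hlim
  obtain ⟨ψ, hψ, hconst⟩ := Pool.Agent.NBT.H32.const_subseq _ hfin
  refine ⟨φ ∘ ψ, fun m => (γ (ψ 0))⁻¹ * γ (ψ m), fun m => s (ψ m), act (γ (ψ 0))⁻¹ p,
    hφ.comp hψ, fun m => Γ.mul_mem (Γ.inv_mem (hγ _)) (hγ _), ?_, fun m => hs (ψ m),
    (h.act_mem_iff (Γ.inv_mem (hγ _))).2 hp, ?_⟩
  · intro m
    have e : γ (ψ m) * g * (γ (ψ m))⁻¹ = γ (ψ 0) * g * (γ (ψ 0))⁻¹ := hconst m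
    have e2 : γ (ψ m) * g = γ (ψ 0) * g * (γ (ψ 0))⁻¹ * γ (ψ m) := by
      rw [← e]; group
    show (γ (ψ 0))⁻¹ * γ (ψ m) * g = g * ((γ (ψ 0))⁻¹ * γ (ψ m))
    calc (γ (ψ 0))⁻¹ * γ (ψ m) * g = (γ (ψ 0))⁻¹ * (γ (ψ m) * g) := by group
      _ = (γ (ψ 0))⁻¹ * (γ (ψ 0) * g * (γ (ψ 0))⁻¹ * γ (ψ m)) := by rw [e2]
      _ = g * ((γ (ψ 0))⁻¹ * γ (ψ m)) := by group
  · have h1 : Tendsto (fun m => s (ψ m) • act (γ (ψ m)) (x (φ (ψ m)))) atTop (𝓝 p) :=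
      hlim.comp hψ.tendsto_atTop
    have h2 := ((CC.act_continuous (γ (ψ 0))⁻¹).tendsto p).comp h1
    refine h2.congr fun m => ?_
    show act (γ (ψ 0))⁻¹ (s (ψ m) • act (γ (ψ m)) (x (φ (ψ m)))) = _
    rw [CC.act_smul, ← CC.act_mul]
    rfl

end Pool.Agent.VMX.H52
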